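import Pool.Agent.X41.Chee.Near

set_option autoImplicit false

/-!
# The regular polygons do not minimise the anisotropic Cheeger functional of the disk

For every even `n ≥ 22` there is a centrally symmetric convex polygon `P` with exactly `n` sides and
`J_B[P] < J_B[P*_n]`, where `B` is the unit disk and `P*_n` the regular `n`-gon circumscribed about
`B`.  So the answer to Q1 of `MP_4eea03_an` is negative.

The polygon `P` is close to the square `[-1,1]²`.  The field `φ(x) = x` has values in the regular
polygon on `B`, hence `h_K(B) ≥ 2` and `J_B[P*_n] ≥ 2 √π cos (π/n)`; the truncated disk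
`{x ∈ B : |x_1|, |x_2| < 23/25}` gives `h_P(B) ≤ (184/25)/(π - 64/375)` and
`J_B[P] ≤ 2.4776 √2 (1 + 1/10000)`.

The definitions are in `Pool/Agent/X41/Chee/Defs.lean`: `disk` (open unit disk of `ℝ × ℝ` with the
Euclidean inner product `dot`), `polarNorm`, `polarSet`, the anisotropic perimeter `perim` (in
distributional form), the Cheeger constant `cheeger`, the functional `J`, the polygons with exactly
`n` sides `IsSymNGon n`, and the regular polygon `regular n`.
-/

namespace Pool.Agent.Results.MP_4eea03_an.NearSquares

open Pool.Agent.X41.Chee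

/-- **Negative answer to Q1**, for every even `n ≥ 22`. -/
theorem result (n : ℕ) (he : Even n) (hn : 22 ≤ n) :
    IsSymNGon n (regular n) ∧ ∃ P : Set (ℝ × ℝ), IsSymNGon n P ∧ J disk P < J disk (regular n) := by
  refine ⟨regular_ngon (by omega) he, ?_⟩
  obtain ⟨N, hN⟩ := he
  have h2 : n = 2 * N := by omega
  refine ⟨near N (1 / 10000), ?_, ?_⟩
  · rw [h2]
    exact near_ngon (by omega) (by norm_num) (by norm_num)
  · refine lt_of_le_of_lt (J_near_le (by omega) (by norm_num))
      (lt_of_lt_of_le ?_ (J_regular_ge (by omega)))
    have h3 := numeric hn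
    apply (ENNReal.ofReal_lt_ofReal_iff_of_nonneg (by
      have : 0 < Real.pi - 64 / 375 := by linarith [Real.pi_gt_three]
      positivity)).2
    exact h3

end Pool.Agent.Results.MP_4eea03_an.NearSquares
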